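import Pool.Agent.H37.CNQ.Stmts
import Pool.Agent.H3.CND.ART

/-!
# Row QU1 of the board `cnq`: the quotient of a cover by a normal subgroup
-/

set_option autoImplicit false

namespace Pool.CND

namespace QU1

section

variable {k L : Type} [Field k] [Field L] [Algebra k L]

/-- the translate of a place -/
def tr (P : Place k L) (σ : L ≃ₐ[k] L) : Place k L where
  ord x := P.ord (σ x)
  ord_mul x y hx hy := by
    rw [map_mul]
    exact P.ord_mul _ _ (by simpa using hx) (by simpa using hy)
  ord_add x y hx hy hs := by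
    rw [map_add]
    refine P.ord_add _ _ (by simpa using hx) (by simpa using hy) ?_
    intro h
    rw [← map_add, map_eq_zero_iff σ σ.injective] at h
    exact hs h
  ord_surj := by
    obtain ⟨x, hx, h1⟩ := P.ord_surj
    refine ⟨σ.symm x, by simpa using hx, ?_⟩
    rw [AlgEquiv.apply_symm_apply]
    exact h1
  ord_const c hc := by
    rw [AlgEquiv.commutes]
    exact P.ord_const c hc
  residue x hx h0 := by
    obtain ⟨c, hc⟩ := P.residue (σ x) (by simpa using hx) h0
    refine ⟨c, ?_⟩
    rcases hc with hc | hc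
    · left
      apply σ.injective
      rw [hc, AlgEquiv.commutes]
    · right
      rw [map_sub, AlgEquiv.commutes]
      exact hc

theorem tr_ord (P : Place k L) (σ : L ≃ₐ[k] L) (x : L) : (tr P σ).ord x = P.ord (σ x) := rfl

end

section

variable {k L G : Type} [Field k] [Field L] [Algebra k L] [Group G] (ρ : G →* (L ≃ₐ[k] L))
  (C : Subgroup G) [C.Normal] (E : IntermediateField k L)
  (hE : ∀ z : L, z ∈ E ↔ ∀ c ∈ C, ρ c z = z)

include hE in
theorem stable (g : G) (x : L) (hx : x ∈ E) : ρ g x ∈ E := by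
  rw [hE]
  intro n hn
  have hn' : g⁻¹ * n * g ∈ C := by
    have := (inferInstance : C.Normal).conj_mem n hn g⁻¹
    rwa [inv_inv] at this
  have h3 := (hE x).1 hx (g⁻¹ * n * g) hn'
  have h4 : ρ n (ρ g x) = ρ g (ρ (g⁻¹ * n * g) x) := by
    rw [← AlgEquiv.mul_apply, ← AlgEquiv.mul_apply, ← map_mul, ← map_mul]
    congr 2
    group
  rw [h4, h3]

/-- restriction of `ρ g` -/
def res (g : G) : E ≃ₐ[k] E :=
  { toFun := fun x => ⟨ρ g x, stable ρ C E hE g x x.2⟩
    invFun := fun x => ⟨ρ g⁻¹ x, stable ρ C E hE g⁻¹ x x.2⟩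
    left_inv := by
      intro x
      apply Subtype.ext
      show ρ g⁻¹ (ρ g x) = x
      rw [← AlgEquiv.mul_apply, ← map_mul, inv_mul_cancel, map_one, AlgEquiv.one_apply]
    right_inv := by
      intro x
      apply Subtype.ext
      show ρ g (ρ g⁻¹ x) = x
      rw [← AlgEquiv.mul_apply, ← map_mul, mul_inv_cancel, map_one, AlgEquiv.one_apply]
    map_mul' := by
      intro x y
      apply Subtype.ext
      show ρ g ((x : L) * y) = ρ g x * ρ g y
      rw [map_mul]
    map_add' := by
      intro x y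
      apply Subtype.ext
      show ρ g ((x : L) + y) = ρ g x + ρ g y
      rw [map_add]
    commutes' := by
      intro c
      apply Subtype.ext
      show ρ g (algebraMap k L c) = algebraMap k L c
      rw [AlgEquiv.commutes] }

theorem res_apply (g : G) (x : E) : ((res ρ C E hE g x : E) : L) = ρ g x := rfl

/-- the action of `G` on `E` -/
def resHom : G →* (E ≃ₐ[k] E) where
  toFun := res ρ C E hE
  map_one' := by
    ext x
    rw [res_apply, map_one]
    rfl
  map_mul' g g' := by
    ext x
    rw [res_apply, map_mul]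
    rfl

theorem resHom_apply (g : G) (x : E) : ((resHom ρ C E hE g x : E) : L) = ρ g x := rfl

end

end QU1

open QU1 in
theorem qu1_thm (hEXS : S_EXS) (hTRV : S_TRV) : S_QU1 := by
  intro k L G _ _ _ _ _ _ ρ t C _ hcov
  let H : Subgroup (L ≃ₐ[k] L) := C.map ρ
  have hHf : Finite H := by
    have h2 : (ρ '' (C : Set G)).Finite := (Set.toFinite _).image ρ
    have h3 : (H : Set (L ≃ₐ[k] L)) = ρ '' (C : Set G) := Subgroup.coe_map ρ C
    have : (H : Set (L ≃ₐ[k] L)).Finite := by rw [h3]; exact h2
    exact this.to_subtype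
  let E : IntermediateField k L := IntermediateField.fixedField H
  have hfin : Module.Finite E L :=
    (inferInstance : FiniteDimensional (FixedPoints.subfield H L) L)
  have hsep : Algebra.IsSeparable E L :=
    (inferInstance : Algebra.IsSeparable (FixedPoints.subfield H L) L)
  have hE : ∀ z : L, z ∈ E ↔ ∀ c ∈ C, ρ c z = z := by
    intro z
    rw [IntermediateField.mem_fixedField_iff]
    constructor
    · intro h c hc
      exact h (ρ c) (Subgroup.mem_map_of_mem ρ hc)
    · rintro h f ⟨c, hc, rfl⟩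
      exact h c hc
  clear_value E
  have hker : ∀ c ∈ C, resHom ρ C E hE c = 1 := by
    intro c hc
    ext x
    rw [resHom_apply]
    exact (hE x).1 x.2 c hc
  let ρ' : G ⧸ C →* (E ≃ₐ[k] E) := QuotientGroup.lift C (resHom ρ C E hE) hker
  have hρ' : ∀ (g : G) (z : E), ((ρ' (g : G ⧸ C) z : E) : L) = ρ g z := fun g z => rfl
  have htfix : ∀ g : G, ρ g t = t :=
    (hcov.fixed t).2 (IntermediateField.mem_adjoin_simple_self k t)
  have ht : t ∈ E := (hE t).2 fun c _ => htfix c
  refine ⟨E, ρ', ⟨t, ht⟩, hE, rfl, hρ', ?_⟩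
  have htr : Transcendental k (⟨t, ht⟩ : E) := by
    rw [← transcendental_algebraMap_iff (A := L) (algebraMap E L).injective]
    exact hcov.trans
  have ht0 : (⟨t, ht⟩ : E) ≠ 0 := by
    intro h
    rw [h] at htr
    exact htr isAlgebraic_zero
  refine ⟨?_, htr, ?_, ?_⟩
  · rw [injective_iff_map_eq_one]
    intro x hx
    obtain ⟨g, rfl⟩ := QuotientGroup.mk_surjective x
    rw [QuotientGroup.eq_one_iff]
    refine art_thm k L G ρ C g hcov.inj ?_
    intro z hz
    have h1 := hρ' g ⟨z, (hE z).2 hz⟩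
    have h2 : ρ' (g : G ⧸ C) = 1 := hx
    rw [h2] at h1
    exact h1.symm
  · intro x
    have h1 : (∀ g : G ⧸ C, ρ' g x = x) ↔ ∀ g : G, ρ g (x : L) = x := by
      constructor
      · intro h g
        rw [← hρ' g x, h]
      · intro h q
        obtain ⟨g, rfl⟩ := QuotientGroup.mk_surjective q
        apply Subtype.ext
        exact (hρ' g x).trans (h g)
    rw [h1, hcov.fixed]
    have h2 : (IntermediateField.adjoin k {(⟨t, ht⟩ : E)}).map E.val =
        IntermediateField.adjoin k {t} := by
      rw [IntermediateField.adjoin_map, Set.image_singleton]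
      rfl
    rw [← h2, IntermediateField.mem_map]
    constructor
    · rintro ⟨y, hy, hyx⟩
      have : y = x := Subtype.ext hyx
      rwa [← this]
    · intro h
      exact ⟨x, h, rfl⟩
  · intro Q hQ q hq
    obtain ⟨g, rfl⟩ := QuotientGroup.mk_surjective q
    obtain ⟨P, e, he, hPQ⟩ := hEXS k L E Q hfin hsep
    have hPt : 0 ≤ P.ord t := by
      have h1 := hPQ ⟨t, ht⟩ ht0
      have h2 : P.ord t = (e : ℤ) * Q.ord ⟨t, ht⟩ := h1.symm
      rw [h2]
      positivity
    obtain ⟨c, hc, hcz⟩ := hTRV k L G ρ C P (tr P (ρ g)) (by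
      intro z hz hzC h0
      have hzE : z ∈ E := (hE z).2 hzC
      have hz0 : (⟨z, hzE⟩ : E) ≠ 0 := by
        intro h
        exact hz (congrArg Subtype.val h)
      have h1 := hPQ ⟨z, hzE⟩ hz0
      have h2 := hPQ (ρ' (g : G ⧸ C) ⟨z, hzE⟩) (by simpa using hz0)
      have h3 : Q.ord (ρ' (g : G ⧸ C) ⟨z, hzE⟩) = Q.ord ⟨z, hzE⟩ := hq _ hz0
      rw [h3, h1, hρ'] at h2
      rw [tr_ord, ← h2]
      exact h0)
    have hfix : Fixes P (ρ (g * c⁻¹)) := by
      intro z hz
      have h1 := hcz (ρ c⁻¹ z) (by simpa using hz)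
      rw [tr_ord, ← AlgEquiv.mul_apply, ← map_mul, ← AlgEquiv.mul_apply, ← map_mul,
        mul_inv_cancel, map_one, AlgEquiv.one_apply] at h1
      exact h1
    have h1 : g * c⁻¹ = 1 := hcov.unram P hPt _ hfix
    have h2 : g = c := by
      rw [← mul_one g, ← inv_mul_cancel c, ← mul_assoc, h1, one_mul]
    rw [QuotientGroup.eq_one_iff, h2]
    exact hc

end Pool.CND
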